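import Pool.Agent.K3h16.MI.Stm

/-!
# Brick FIN: the volume measure is finite
-/

set_option autoImplicit false

open MeasureTheory Set Filter Topology
open scoped ContDiff

namespace Pool.Agent.K3h87.MI

open Pool.Agent.K3h16.MI

lemma fin_continuous_pd {m n : ℕ} {γ : E m → E n} (h : ContDiff ℝ ∞ γ) (b : Fin m) :
    Continuous (fun u => pd γ u b) := by
  have h1 : Continuous (fderiv ℝ γ) := h.continuous_fderiv (by simp)
  unfold pd
  exact h1.clm_apply continuous_const

lemma fin_continuous_jac {m n : ℕ} {γ : E m → E n} (h : ContDiff ℝ ∞ γ) :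
    Continuous (jac γ) := by
  unfold jac pairing
  apply Real.continuous_sqrt.comp
  apply Continuous.matrix_det
  apply continuous_matrix
  intro i j
  simp only [Matrix.of_apply]
  exact (fin_continuous_pd h i).inner (fin_continuous_pd h j)

theorem t_FIN : S_FIN := by
  intro m n M e v hM
  have hfin : v M < ⊤ := by
    apply hM.compact.measure_lt_top_of_nhdsWithin
    intro x hx
    obtain ⟨γ, hγ, ⟨u0, rfl⟩, -⟩ := hM.charts x hx
    obtain ⟨V, hV, hVr⟩ := hγ.open_range
    obtain ⟨O, hO, hOB⟩ := hγ.embedding.isInducing.isOpen_iff.1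
      (Metric.isOpen_ball (x := u0) (ε := 1))
    have hxO : γ u0 ∈ O := by
      have : u0 ∈ γ ⁻¹' O := by rw [hOB]; exact Metric.mem_ball_self one_pos
      exact this
    have hxV : γ u0 ∈ V := by
      have : γ u0 ∈ M ∩ V := by rw [← hVr]; exact mem_range_self u0
      exact this.2
    refine ⟨M ∩ (O ∩ V), inter_mem_nhdsWithin M ((hO.inter hV).mem_nhds ⟨hxO, hxV⟩), ?_⟩
    have hsub : M ∩ (O ∩ V) ⊆ O ∩ range γ := by
      rintro y ⟨h1, h2, h3⟩
      refine ⟨h2, ?_⟩
      rw [hVr]
      exact ⟨h1, h3⟩
    refine lt_of_le_of_lt (measure_mono hsub) ?_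
    rw [← Measure.restrict_apply hO.measurableSet, hM.vol_param γ hγ,
      Measure.map_apply hγ.smooth.continuous.measurable hO.measurableSet, hOB,
      withDensity_apply _ Metric.isOpen_ball.measurableSet]
    obtain ⟨C, hC⟩ := (isCompact_closedBall u0 1).exists_bound_of_continuousOn
      (fin_continuous_jac hγ.smooth).continuousOn
    calc ∫⁻ u in Metric.ball u0 1, ENNReal.ofReal (jac γ u)
        ≤ ∫⁻ _u in Metric.ball u0 1, ENNReal.ofReal C := by
          apply setLIntegral_mono measurable_const
          intro u hu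
          apply ENNReal.ofReal_le_ofReal
          have := hC u (Metric.ball_subset_closedBall hu)
          exact (Real.norm_eq_abs _ ▸ le_abs_self (jac γ u)).trans this
      _ = ENNReal.ofReal C * volume (Metric.ball u0 1) := by
          rw [setLIntegral_const]
      _ < ⊤ := ENNReal.mul_lt_top ENNReal.ofReal_lt_top measure_ball_lt_top
  refine ⟨?_⟩
  have h1 : (univ : Set (E n)) = M ∪ Mᶜ := (union_compl_self M).symm
  rw [h1]
  refine lt_of_le_of_lt (measure_union_le _ _) ?_
  rw [hM.vol_compl, add_zero]
  exact hfin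

end Pool.Agent.K3h87.MI
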